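import Pool.Agent.Y600.Circ.Block

/-!
# Supports for subgroups of exponential index

The theorem `exists_support` of `Y600.Circ.Block` without the condition `2 m ≤ N`: a subgroup of the
symmetric group of index less than `N ^ m` contains all even permutations that fix certain less than
`2 m` points, if `2 m N` is at most the number of points (`N ≥ 5`).
-/

set_option linter.unusedSectionVars false
set_option autoImplicit false

namespace Pool.Agent.J6H7.GX

open Equiv Equiv.Perm Pool.Agent.Y600.Circ

section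

variable {W : Type} [Fintype W] [DecidableEq W] {H : Subgroup (Perm W)} {Z : Type} [Fintype Z]

/-- a union of classes of medium size -/
theorem exists_medium {m : ℕ} (hm : 1 ≤ m) (hW : 10 * m ≤ Fintype.card W)
    (hsmall : ∀ x0 : W, ∀ Δ : Finset W, (∀ y, y ∈ Δ ↔ Lk H x0 y) → 2 * m ≤ Δᶜ.card) :
    ∃ A : Finset W, (∀ x y, x ∈ A → Lk H x y → y ∈ A) ∧ 2 * m ≤ A.card ∧ 2 * m ≤ Aᶜ.card := by
  classical
  by_cases hbig : ∃ x0 : W, 2 * m ≤ (Finset.univ.filter fun y => Lk H x0 y).card
  · obtain ⟨x0, hx0⟩ := hbig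
    refine ⟨Finset.univ.filter fun y => Lk H x0 y, ?_, hx0, hsmall x0 _ (by simp)⟩
    intro x y hx hxy
    simp only [Finset.mem_filter, Finset.mem_univ, true_and] at hx ⊢
    exact hx.trans hxy
  · push Not at hbig
    let 𝒞 : Finset (Finset W) := Finset.univ.filter fun A =>
      (∀ x y, x ∈ A → Lk H x y → y ∈ A) ∧ A.card < 4 * m
    have hne : 𝒞.Nonempty := ⟨∅, by simp [𝒞]; omega⟩
    obtain ⟨A, hA, hmax⟩ := Finset.exists_max_image 𝒞 (fun A => A.card) hne
    simp only [𝒞, Finset.mem_filter, Finset.mem_univ, true_and] at hA hmax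
    obtain ⟨hA1, hA2⟩ := hA
    have hcompl : A.card + Aᶜ.card = Fintype.card W := Finset.card_add_card_compl A
    refine ⟨A, hA1, ?_, by omega⟩
    by_contra hcon
    push Not at hcon
    obtain ⟨y, hy⟩ : ∃ y, y ∈ Aᶜ := by
      have : 0 < Aᶜ.card := by omega
      exact Finset.card_pos.mp this
    have hyA : y ∉ A := Finset.mem_compl.mp hy
    have h1 : (A ∪ Finset.univ.filter fun z => Lk H y z).card ≤ A.card := by
      apply hmax
      constructor
      · intro x z hx hxz
        rw [Finset.mem_union, Finset.mem_filter] at hx ⊢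
        rcases hx with hx | ⟨-, hx⟩
        · exact Or.inl (hA1 x z hx hxz)
        · exact Or.inr ⟨Finset.mem_univ _, hx.trans hxz⟩
      · have h2 := hbig y
        have h3 := Finset.card_union_le A (Finset.univ.filter fun z => Lk H y z)
        omega
    have h2 : A ∪ (Finset.univ.filter fun z => Lk H y z) = A :=
      (Finset.eq_of_subset_of_card_le Finset.subset_union_left h1).symm
    apply hyA
    rw [← h2, Finset.mem_union, Finset.mem_filter]
    exact Or.inr ⟨Finset.mem_univ _, Or.inl rfl⟩

/-- **Supports.** A subgroup of index less than `N ^ m` contains all even permutations that fix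
less than `2 m` points. -/
theorem exists_support' {N m : ℕ} (hN : 5 ≤ N) (hm : 1 ≤ m)
    (hW : 2 * m * N ≤ Fintype.card W) (F : Perm W → Z)
    (hF : ∀ γ γ', F γ = F γ' → γ⁻¹ * γ' ∈ H) (hZ : Fintype.card Z < N ^ m) :
    ∃ S : Finset W, S.card < 2 * m ∧ ∀ γ : Perm W, sign γ = 1 → (∀ s ∈ S, γ s = s) → γ ∈ H := by
  classical
  have hW10 : 10 * m ≤ Fintype.card W := by
    refine le_trans ?_ hW
    nlinarith
  obtain ⟨e0⟩ : Nonempty ((Σ _ : Fin (2 * m), Fin N) ↪ W) := by
    refine Function.Embedding.nonempty_of_card_le ?_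
    rw [Fintype.card_sigma]
    simpa using hW
  by_cases hlarge : ∃ x0 : W, ∃ Δ : Finset W, (∀ y, y ∈ Δ ↔ Lk H x0 y) ∧ Δᶜ.card < 2 * m
  · obtain ⟨x0, Δ, hΔmem, hΔ⟩ := hlarge
    refine ⟨Δᶜ, hΔ, fun γ hγ hγS => ?_⟩
    refine mem_of_class (H := H) Δ (fun x hx y hy => ?_) hγ fun x hx => ?_
    · exact (((hΔmem _).1 hx).symm).trans ((hΔmem _).1 hy)
    · exact hγS x (Finset.mem_compl.2 hx)
  · push Not at hlarge
    exfalso
    obtain ⟨A, hA, hA1, hA2⟩ := exists_medium hm hW10 hlarge
    obtain ⟨a⟩ : Nonempty (Fin (2 * m) ↪ A) :=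
      Function.Embedding.nonempty_of_card_le (by simpa using hA1)
    obtain ⟨b⟩ : Nonempty (Fin (2 * m) ↪ (Aᶜ : Finset W)) :=
      Function.Embedding.nonempty_of_card_le (by
        rw [Fintype.card_fin, Fintype.card_coe]
        exact hA2)
    obtain ⟨s0, hs0⟩ : ∃ s : Fin N, s = ⟨0, by omega⟩ := ⟨_, rfl⟩
    obtain ⟨s1, hs1⟩ : ∃ s : Fin N, s = ⟨1, by omega⟩ := ⟨_, rfl⟩
    have h01 : s0 ≠ s1 := by
      rw [hs0, hs1]
      intro h
      exact absurd (congrArg Fin.val h) (by simp)
    obtain ⟨σ, hσ⟩ := exists_perm (ι := Fin (2 * m) ⊕ Fin (2 * m))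
      (u := Sum.elim (fun i => e0 ⟨i, s0⟩) fun i => e0 ⟨i, s1⟩)
      (v := Sum.elim (fun i => (a i : W)) fun i => (b i : W))
      (by
        rintro (i | i) (i' | i') h
        · simp only [Sum.elim_inl] at h
          have h2 := e0.injective h
          simp only [Sigma.mk.injEq] at h2
          rw [h2.1]
        · simp only [Sum.elim_inl, Sum.elim_inr] at h
          have h2 := e0.injective h
          simp only [Sigma.mk.injEq] at h2
          exact absurd (eq_of_heq h2.2) h01
        · simp only [Sum.elim_inl, Sum.elim_inr] at h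
          have h2 := e0.injective h
          simp only [Sigma.mk.injEq] at h2
          exact absurd (eq_of_heq h2.2).symm h01
        · simp only [Sum.elim_inr] at h
          have h2 := e0.injective h
          simp only [Sigma.mk.injEq] at h2
          rw [h2.1])
      (by
        rintro (i | i) (i' | i') h
        · simp only [Sum.elim_inl] at h
          rw [a.injective (Subtype.ext h)]
        · simp only [Sum.elim_inl, Sum.elim_inr] at h
          exact absurd (h ▸ (a i).2) (Finset.mem_compl.1 (b i').2)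
        · simp only [Sum.elim_inl, Sum.elim_inr] at h
          exact absurd (h ▸ (a i').2) (Finset.mem_compl.1 (b i).2)
        · simp only [Sum.elim_inr] at h
          rw [b.injective (Subtype.ext h)])
    obtain ⟨j, hj⟩ := exists_block hN hm F hF hZ (e0.trans σ.toEmbedding)
    have h1 := hj s0 s1
    have h2 : (e0.trans σ.toEmbedding) ⟨j, s0⟩ = (a j : W) := hσ (Sum.inl j)
    have h3 : (e0.trans σ.toEmbedding) ⟨j, s1⟩ = (b j : W) := hσ (Sum.inr j)
    rw [h2, h3] at h1
    exact Finset.mem_compl.1 (b j).2 (hA _ _ (a j).2 h1)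

end

end Pool.Agent.J6H7.GX
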