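import Pool.Agent.J6H7.GX.Sym.Tree
import Pool.Agent.J6H7.GX.Sym.Supp

/-!
# The lower bound for symmetric families of extension variables
-/

set_option linter.unusedSectionVars false
set_option autoImplicit false

namespace Pool.Agent.J6H7.GX

open Finset Filter Pool.Agent.Helper600R2.Cnt
open scoped Pointwise

/-- small supports -/
theorem exists_supp {N m : ℕ} {I : Type} [Fintype I] [MulAction (Equiv.Perm (Fin N)) I]
    (hm : 1 ≤ m) (hN : 10 * m ≤ N) (hI : Fintype.card I < 5 ^ m) (g : I) :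
    ∃ S : Finset (Fin N), S.card < 2 * m ∧ Supp g S := by
  classical
  obtain ⟨S, h1, h2⟩ := exists_support' (W := Fin N) (Z := I)
    (H := MulAction.stabilizer (Equiv.Perm (Fin N)) g) (N := 5) (m := m) le_rfl hm
    (by rw [Fintype.card_fin]; omega) (fun γ => γ • g) (by
      intro γ γ' h
      rw [MulAction.mem_stabilizer_iff, mul_smul, ← h, inv_smul_smul]) hI
  exact ⟨S, h1, fun γ hγ hf => MulAction.mem_stabilizer_iff.mp (h2 γ hγ hf)⟩

theorem pow_bound (t : ℕ) : 2 ^ t < 5 ^ (t / 2 + 1) := by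
  have h1 : t ≤ 2 * (t / 2) + 1 := by omega
  calc 2 ^ t ≤ 2 ^ (2 * (t / 2) + 1) := Nat.pow_le_pow_right (by norm_num) h1
    _ = 4 ^ (t / 2) * 2 := by rw [pow_succ, pow_mul]; norm_num
    _ ≤ 5 ^ (t / 2) * 2 := Nat.mul_le_mul_right 2 (Nat.pow_le_pow_left (by norm_num) _)
    _ < 5 ^ (t / 2) * 5 := Nat.mul_lt_mul_of_pos_left (by norm_num) (Nat.pow_pos (by norm_num))
    _ = 5 ^ (t / 2 + 1) := (pow_succ _ _).symm

/-- the parameters -/
theorem sym_params {q M N : ℕ} (hq : 1 ≤ q) (hM : 10 * ((q + 2) * (q + 3)) ≤ M) (hMN : M ≤ N) :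
    ∃ m s : ℕ, 1 ≤ m ∧ 10 * m ≤ N ∧ 2 ^ (N / M) < 5 ^ m ∧ 2 * m ≤ s ∧ q ≤ s ∧
      q * (3 * s) + 2 ≤ N ∧ (q + 2) * s * (M / ((q + 2) * (q + 3))) ≤ N := by
  obtain ⟨t, ht⟩ : ∃ t, t = N / M := ⟨_, rfl⟩
  have hMpos : 0 < M := by
    refine lt_of_lt_of_le ?_ hM
    positivity
  have ht1 : 1 ≤ t := by rw [ht]; exact (Nat.one_le_div_iff hMpos).mpr hMN
  have htM : t * M ≤ N := by rw [ht]; exact Nat.div_mul_le_self N M
  have hK : 6 ≤ (q + 2) * (q + 3) := by nlinarith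
  have h10 : t * (10 * ((q + 2) * (q + 3))) ≤ N := (Nat.mul_le_mul_left t hM).trans htM
  refine ⟨t / 2 + 1, (q + 3) * t, by omega, ?_, ?_, ?_, ?_, ?_, ?_⟩
  · nlinarith [Nat.div_le_self t 2]
  · rw [← ht]; exact pow_bound t
  · have : 2 * (t / 2 + 1) ≤ t + 2 := by omega
    nlinarith
  · nlinarith
  · have e1 : q * (3 * ((q + 3) * t)) + 2 ≤ t * (10 * ((q + 2) * (q + 3))) := by
      nlinarith [Nat.mul_le_mul ht1 (show 1 ≤ (q + 2) * (q + 3) by omega),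
        mul_nonneg (Nat.zero_le t) (Nat.zero_le q)]
    exact e1.trans h10
  · calc (q + 2) * ((q + 3) * t) * (M / ((q + 2) * (q + 3)))
        = t * (M / ((q + 2) * (q + 3)) * ((q + 2) * (q + 3))) := by ring
      _ ≤ t * M := Nat.mul_le_mul_left t (Nat.div_mul_le_self _ _)
      _ ≤ N := htM

/-- comparison of the bounds -/
theorem rpow_bound {M K : ℕ} {δ : ℝ} (hδ : 0 < δ) (hK : 1 ≤ K) (hM : 4 * K ^ 2 ≤ M) :
    (M : ℝ) ^ (δ / 2) ≤ ((M / K : ℕ) : ℝ) ^ δ := by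
  have hM0 : (0 : ℝ) ≤ M := Nat.cast_nonneg M
  have h1 : Real.sqrt M ≤ ((M / K : ℕ) : ℝ) := by
    have hKr : (1 : ℝ) ≤ K := by exact_mod_cast hK
    have hMr : 4 * (K : ℝ) ^ 2 ≤ M := by exact_mod_cast hM
    have h2 : (M : ℝ) / K - 1 ≤ ((M / K : ℕ) : ℝ) := by
      have h3 := Nat.lt_div_mul_add (a := M) (b := K) (by omega)
      have h4 : (M : ℝ) < ((M / K : ℕ) : ℝ) * K + K := by exact_mod_cast h3
      rw [sub_le_iff_le_add, div_le_iff₀ (by linarith)]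
      nlinarith
    refine le_trans ?_ h2
    have hs0 := Real.sqrt_nonneg (M : ℝ)
    have hs1 : 2 * (K : ℝ) ≤ Real.sqrt M := by
      apply Real.le_sqrt_of_sq_le
      nlinarith
    have hs2 : Real.sqrt M * Real.sqrt M = M := Real.mul_self_sqrt hM0
    rw [le_sub_iff_add_le, le_div_iff₀ (by linarith)]
    nlinarith
  calc (M : ℝ) ^ (δ / 2) = (Real.sqrt M) ^ δ := by
        rw [Real.sqrt_eq_rpow, ← Real.rpow_mul hM0]
        congr 1
        ring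
    _ ≤ ((M / K : ℕ) : ℝ) ^ δ := Real.rpow_le_rpow (Real.sqrt_nonneg _) h1 hδ.le

/-- **The lower bound for symmetric families.** -/
theorem sym_lower (p q : ℕ) (hp : p.Prime) (hq : 2 ≤ q) (hpq : ¬ p ∣ q) (d c : ℕ) :
    ∃ δ : ℝ, 0 < δ ∧ ∀ᶠ M : ℕ in atTop, ∀ N : ℕ, M ≤ N → ∀ (k : ℕ) (I : Type) [Fintype I]
      [MulAction (Equiv.Perm (Fin N)) I] (G : SymGates q N I) (D : Fin k → Fm p (XVar q N I k))
      (𝒰 : Finset (Fm p (XVar q N I k))), SubClosed 𝒰 → Fintype.card I ≤ 2 ^ (N / M) →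
      (∀ j, Uses (fun x => ∀ i : Fin k, x = .inr (.inr i) → i < j) (D j)) → (∀ j, D j ∈ 𝒰) →
      (∀ φ ∈ 𝒰, φ.depth ≤ d) → (∀ φ ∈ 𝒰, (φ.tops.card : ℝ) ≤ (M : ℝ) ^ δ) →
      (k : ℝ) ≤ (M : ℝ) ^ δ → (𝒰.card : ℝ) ≤ (2 : ℝ) ^ ((M : ℝ) ^ δ) →
      ∀ f, ¬ SDer c G D 𝒰 (.or 0 f) := by
  obtain ⟨δ, hδ, hlow⟩ := lower p q hp hq hpq d c
  obtain ⟨K, hK⟩ : ∃ K, K = (q + 2) * (q + 3) := ⟨_, rfl⟩
  have hK1 : 1 ≤ K := by rw [hK]; exact Nat.mul_pos (by omega) (by omega)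
  refine ⟨δ / 2, by positivity, ?_⟩
  have hdiv : Tendsto (fun M : ℕ => M / K) atTop atTop :=
    Nat.tendsto_div_const_atTop (by omega)
  filter_upwards [hdiv.eventually hlow, eventually_ge_atTop (4 * K ^ 2),
    eventually_ge_atTop (10 * K)] with M h1 h2 h3
  intro N hMN k I _ _ G D 𝒰 hcl hI hDl hD hd hG hk hU f hder
  have hb := rpow_bound hδ hK1 h2
  rw [hK] at h3
  obtain ⟨m, s, p1, p2, p3, p4, p5, p6, p7⟩ := sym_params (by omega) h3 hMN
  rw [← hK] at p7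
  have hsupp : ∀ g : I, ∃ S : Finset (Fin N), S.card < 2 * m ∧ Supp g S :=
    exists_supp p1 p2 (hI.trans_lt p3)
  choose S hS1 hS2 using hsupp
  have hSs : ∀ g, (S g).card ≤ s := fun g => (hS1 g).le.trans p4
  have hE : EDer c (M / K) (symSys G s S D hDl) 𝒰 (.or 0 f) :=
    SDer.toEDer hS2 hSs p5 (by omega) p6 p7 hder
  refine h1 N ((Nat.div_le_self M K).trans hMN) k I (symSys G s S D hDl) 𝒰 hcl ?_ hD hd
    (fun φ hφ => (hG φ hφ).trans hb) (hk.trans hb)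
    (hU.trans (Real.rpow_le_rpow_of_exponent_le (by norm_num) hb)) f hE
  intro g β
  classical
  have e1 : ((symSys G s S D hDl).tree g β).depth ≤ s := by
    have := askF_depth (S g) (fun τ => DTree.leaf (decide (TV G s g τ))) 0 (fun _ => le_rfl)
    have h5 := hSs g
    exact this.trans (by omega)
  refine le_trans (Nat.mul_le_mul_right _ ?_) p7
  exact e1.trans (Nat.le_mul_of_pos_left s (by omega))

end Pool.Agent.J6H7.GX
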