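import Pool.Agent.J6H7.GX.Sym.Val
import Pool.Agent.J6H7.GX.Final

/-!
# Decision trees for the extension axioms of symmetric families
-/

set_option linter.unusedSectionVars false
set_option autoImplicit false

namespace Pool.Agent.J6H7.GX

open Finset Pool.Agent.Helper600R2.Cnt
open scoped Pointwise

section ask

variable {N q : ℕ}

/-- ask all points in the list, then continue with the blocks found -/
def askL : List (Fin N) → (PS N → DTree N) → PS N → DTree N
  | [], f, σ => f σ
  | v :: l, f, σ => .ask v (fun B => askL l f (insert B σ))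

lemma askL_depth (f : PS N → DTree N) (D : ℕ) (hf : ∀ τ, (f τ).depth ≤ D) (l : List (Fin N)) :
    ∀ σ, (askL l f σ).depth ≤ l.length + D := by
  induction l with
  | nil => intro σ; simpa [askL] using hf σ
  | cons v l ih =>
    intro σ
    simp only [askL, DTree.depth, List.length_cons]
    have h1 : univ.sup (fun B => (askL l f (insert B σ)).depth) ≤ l.length + D :=
      Finset.sup_le (fun B _ => ih _)
    omega

lemma mt_singleton {π : PS N} (hπ : IsPP q π) {v : Fin N} {B : Finset (Fin N)} (hB : B ∈ π)
    (hv : v ∈ B) : mt {v} π = {B} := by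
  ext C
  rw [mem_mt, mem_singleton]
  constructor
  · rintro ⟨hC, x, hx, hxC⟩
    rw [mem_singleton] at hx
    subst hx
    exact hπ.eq_of_mem hC hB hxC hv
  · rintro rfl
    exact ⟨hB, v, mem_singleton_self v, hv⟩

lemma mt_union (X Y : Finset (Fin N)) (π : PS N) : mt (X ∪ Y) π = mt X π ∪ mt Y π := by
  ext C
  simp only [mem_mt, mem_union]
  constructor
  · rintro ⟨hC, x, hx | hx, hxC⟩
    · exact Or.inl ⟨hC, x, hx, hxC⟩
    · exact Or.inr ⟨hC, x, hx, hxC⟩
  · rintro (⟨hC, x, hx, hxC⟩ | ⟨hC, x, hx, hxC⟩)
    · exact ⟨hC, x, Or.inl hx, hxC⟩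
    · exact ⟨hC, x, Or.inr hx, hxC⟩

lemma askL_out {π : PS N} (hπ : IsPP q π) (f : PS N → DTree N) (b : Bool) (l : List (Fin N)) :
    ∀ σ, (askL l f σ).Out π b ↔
      (∀ v ∈ l, v ∈ cov π) ∧ (f (σ ∪ mt l.toFinset π)).Out π b := by
  induction l with
  | nil =>
    intro σ
    have h1 : mt (([] : List (Fin N)).toFinset) π = ∅ := by
      ext C
      rw [mem_mt]
      simp
    rw [h1]
    simp [askL]
  | cons v l ih =>
    intro σ
    have key : ∀ B ∈ π, v ∈ B →
        insert B σ ∪ mt l.toFinset π = σ ∪ mt (v :: l).toFinset π := by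
      intro B hB hv
      have h1 : (v :: l).toFinset = {v} ∪ l.toFinset := by
        rw [List.toFinset_cons, insert_eq]
      rw [h1, mt_union, mt_singleton hπ hB hv]
      ext C
      simp only [mem_union, mem_insert, mem_singleton]
      tauto
    constructor
    · rintro ⟨B, hB, hv, h⟩
      obtain ⟨h1, h2⟩ := (ih _).mp h
      refine ⟨?_, by rw [← key B hB hv]; exact h2⟩
      intro w hw
      rcases List.mem_cons.mp hw with rfl | hw
      · exact mem_cov.mpr ⟨B, hB, hv⟩
      · exact h1 w hw
    · rintro ⟨h1, h2⟩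
      obtain ⟨B, hB, hv⟩ := mem_cov.mp (h1 v (List.mem_cons_self ..))
      refine ⟨B, hB, hv, (ih _).mpr ⟨fun w hw => h1 w (List.mem_cons_of_mem _ hw), ?_⟩⟩
      rw [key B hB hv]
      exact h2

/-- ask all points in the set, then continue with the blocks found -/
noncomputable def askF (F : Finset (Fin N)) (f : PS N → DTree N) : DTree N :=
  askL F.toList f ∅

lemma askF_depth (F : Finset (Fin N)) (f : PS N → DTree N) (D : ℕ)
    (hf : ∀ τ, (f τ).depth ≤ D) : (askF F f).depth ≤ F.card + D := by
  have := askL_depth f D hf F.toList ∅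
  rwa [Finset.length_toList] at this

lemma askF_out {π : PS N} (hπ : IsPP q π) (F : Finset (Fin N)) (f : PS N → DTree N) (b : Bool) :
    (askF F f).Out π b ↔ F ⊆ cov π ∧ (f (mt F π)).Out π b := by
  unfold askF
  rw [askL_out hπ]
  simp only [Finset.mem_toList, Finset.toList_toFinset, Finset.empty_union]
  exact Iff.rfl

end ask

section sys

variable {p q N k : ℕ} {I : Type} [MulAction (Equiv.Perm (Fin N)) I] [Fintype I]
  (G : SymGates q N I) (s : ℕ) (S : I → Finset (Fin N))
  (D : Fin k → Fm p (XVar q N I k))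
  (hD : ∀ j : Fin k, Uses (fun x => ∀ i : Fin k, x = .inr (.inr i) → i < j) (D j))

open Classical in
/-- the trees for the extension variables of a symmetric family -/
noncomputable def symSys : ExtSys p q N k I where
  D := D
  tree := fun g _ => askF (S g) (fun τ => .leaf (decide (TV G s g τ)))
  lev := fun _ => 0
  tree_lev := fun _ _ _ _ => rfl
  D_lev := fun j => (hD j).imp (fun _ hx => ⟨fun _ _ => Nat.zero_le _, hx⟩)

/-- the points to be asked for a literal -/
def covset (x : Var q N ⊕ I) : Finset (Fin N) := Sum.elim (fun A => A.1) S x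

/-- the truth value of a variable -/
def vx (π : PS N) : Var q N ⊕ I → Prop
  | .inl A => A.1 ∈ π
  | .inr h => TV G s h (mt (S h) π)

variable {G s S D hD}

lemma det_gate {β : Fin k → Bool} {π : PS N} (hπ : IsPP q π) {g : I} (hg : S g ⊆ cov π)
    {b : Bool} (hb : TV G s g (mt (S g) π) ↔ b = true) :
    Det (symSys G s S D hD) β π (.var (.inr (.inl g))) b := by
  classical
  show (askF (S g) (fun τ => .leaf (decide (TV G s g τ)))).Out π b
  rw [askF_out hπ]
  refine ⟨hg, ?_⟩
  show decide (TV G s g (mt (S g) π)) = b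
  cases b with
  | true => exact decide_eq_true (hb.mpr rfl)
  | false => exact decide_eq_false (fun h => by simpa using hb.mp h)

lemma det_var {β : Fin k → Bool} {π : PS N} (hq : 1 ≤ q) (hπ : IsPP q π) (x : Var q N ⊕ I)
    (hx : covset S x ⊆ cov π) {b : Bool} (hb : vx G s S π x ↔ b = true) :
    Det (symSys G s S D hD) β π
      (.var (Sum.elim .inl (fun h => .inr (.inl h)) x : XVar q N I k)) b := by
  rcases x with A | h
  · simp only [covset, Sum.elim_inl] at hx
    simp only [vx] at hb
    simp only [Sum.elim_inl, Det]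
    cases b with
    | true => simp only [if_true]; exact hb.mpr rfl
    | false =>
      simp only [Bool.false_eq_true, if_false]
      refine ⟨fun h => by simpa using hb.mp h, ?_⟩
      obtain ⟨v, hv⟩ : A.1.Nonempty := by
        rw [← card_pos, A.2]; omega
      exact Finset.not_disjoint_iff.mpr ⟨v, hv, hx hv⟩
  · simp only [covset, Sum.elim_inr] at hx
    exact det_gate hπ hx hb

lemma det_lit {β : Fin k → Bool} {π : PS N} (hq : 1 ≤ q) (hπ : IsPP q π) (x : Var q N ⊕ I)
    (hx : covset S x ⊆ cov π) {b : Bool} (hb : vx G s S π x ↔ b = true) :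
    Det (symSys G s S D hD) β π (litF x b) true := by
  unfold litF
  cases b with
  | true =>
    simp only [if_true]
    exact det_var hq hπ x hx hb
  | false =>
    simp only [Bool.false_eq_true, if_false, Det, Bool.not_true]
    exact det_var hq hπ x hx hb

lemma det_lit' {β : Fin k → Bool} {π : PS N} (hq : 1 ≤ q) (hπ : IsPP q π) (x : Var q N ⊕ I)
    (hx : covset S x ⊆ cov π) {b : Bool} (hb : ¬ (vx G s S π x ↔ b = true)) :
    Det (symSys G s S D hD) β π (.neg (litF x b)) true := by
  unfold litF
  cases b with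
  | true =>
    simp only [if_true, Det, Bool.not_true]
    refine det_var hq hπ x hx ?_
    simp only [iff_true] at hb
    simp [hb]
  | false =>
    simp only [Bool.false_eq_true, if_false, Det, Bool.not_true, Bool.not_false]
    refine det_var hq hπ x hx ?_
    simp only [Bool.false_eq_true, iff_false, not_not] at hb
    simp [hb]

variable (hS : ∀ g, Supp g (S g)) (hSs : ∀ g, (S g).card ≤ s) (hqs : q ≤ s)

include hSs hqs in
lemma covset_card (x : Var q N ⊕ I) : (covset S x).card ≤ s := by
  rcases x with A | h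
  · simp only [covset, Sum.elim_inl]; rw [A.2]; exact hqs
  · exact hSs h

include hS hSs hqs in
theorem gate₁_treeAx (hq : 1 ≤ q) {M : ℕ} (hM : (q + 2) * s * M ≤ N) {g : I} {x : Var q N ⊕ I}
    {b : Bool} (hx : (x, b) ∈ G.ch g) :
    TreeAx (symSys G s S D hD) M (.or 2 ![.var (.inr (.inl g)), .neg (litF x b)]) := by
  classical
  intro β
  refine ⟨askF (S g ∪ covset S x) (fun _ => .leaf true), ?_, ?_⟩
  · have h1 := askF_depth (S g ∪ covset S x) (fun _ : PS N => DTree.leaf true) 0
      (fun _ => le_rfl)
    have h2 := card_union_le (S g) (covset S x)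
    have h3 := hSs g
    have h4 := covset_card hSs hqs x
    refine le_trans (Nat.mul_le_mul_right M ?_) hM
    have h5 : 2 * s ≤ (q + 2) * s := Nat.mul_le_mul_right s (by omega)
    omega
  · intro π b' hπ hout
    obtain ⟨h1, -⟩ := (askF_out hπ _ _ _).mp hout
    have hg : S g ⊆ cov π := subset_union_left.trans h1
    have hxc : covset S x ⊆ cov π := subset_union_right.trans h1
    simp only [Det, if_true]
    by_cases hv : vx G s S π x ↔ b = true
    · refine ⟨0, ?_⟩
      show Det _ β π (.var (.inr (.inl g))) true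
      refine det_gate hπ hg ?_
      simp only [iff_true]
      rw [TV_iff]
      refine ⟨x, b, hx, mt (covset S x) π, ?_, ?_, ?_⟩
      · exact (card_mt_le hπ _).trans (covset_card hSs hqs x)
      · exact hπ.mono (union_subset (mt_subset _ _) (mt_subset _ _))
      · rcases x with A | h
        · simp only [covset, Sum.elim_inl] at hxc ⊢
          simp only [vx] at hv
          refine ⟨cov_mt hxc, ?_⟩
          rw [← hv, mem_mt]
          obtain ⟨v, hv'⟩ : A.1.Nonempty := by
            rw [← card_pos, A.2]; omega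
          exact ⟨fun h => h.1, fun h => ⟨h, v, hv', hv'⟩⟩
        · simp only [covset, Sum.elim_inr] at hxc ⊢
          exact ⟨⟨S h, hS h, cov_mt hxc⟩, hv⟩
    · exact ⟨1, det_lit' hq hπ x hxc hv⟩

open Classical in
/-- points outside the known blocks -/
noncomputable def frF (q s : ℕ) (τ : PS N) : Finset (Fin N) :=
  if h : ∃ F : Finset (Fin N), F ⊆ univ \ cov τ ∧ F.card = q * s then h.choose else ∅

lemma frF_card (q s : ℕ) (τ : PS N) : (frF q s τ).card ≤ q * s := by
  classical
  unfold frF
  split_ifs with h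
  · exact h.choose_spec.2.le
  · simp

lemma frF_spec {q s : ℕ} {τ : PS N} (h : (cov τ).card + q * s ≤ N) :
    frF q s τ ⊆ univ \ cov τ ∧ (frF q s τ).card = q * s := by
  classical
  have hex : ∃ F : Finset (Fin N), F ⊆ univ \ cov τ ∧ F.card = q * s := by
    apply Finset.exists_subset_card_eq
    have := card_sdiff_add_card_eq_card (subset_univ (cov τ))
    rw [card_univ, Fintype.card_fin] at this
    omega
  unfold frF
  rw [dif_pos hex]
  exact hex.choose_spec

variable (G s S) in
open Classical in
/-- the points to be asked for a true literal -/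
noncomputable def wit (g : I) (τ : PS N) : Finset (Fin N) :=
  if h : ∃ x b, (x, b) ∈ G.ch g ∧ ∃ σ : PS N, σ.card ≤ s ∧ σ ⊆ τ ∧ Lt (TV G s) x b σ then
    covset S h.choose else ∅

include hSs hqs in
lemma wit_card (g : I) (τ : PS N) : (wit G s S g τ).card ≤ s := by
  classical
  unfold wit
  split_ifs with h
  · exact covset_card hSs hqs _
  · simp

include hS hSs hqs in
theorem gate₂_treeAx (hq : 1 ≤ q) (hroom : q * (3 * s) + 2 ≤ N) {M : ℕ}
    (hM : (q + 2) * s * M ≤ N) {g : I} {t : ℕ}
    {φs : Fin t → Fm p (XVar q N I k)} (hg : ∃ j, φs j = .neg (.var (.inr (.inl g))))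
    (hl : ∀ x b, (x, b) ∈ G.ch g → ∃ j, φs j = litF x b) :
    TreeAx (symSys G s S D hD) M (.or t φs) := by
  classical
  intro β
  let f2 : PS N → PS N → DTree N := fun τ0 τ1 =>
    askF (wit G s S g (τ0 ∪ τ1)) (fun _ => .leaf true)
  let f1 : PS N → DTree N := fun τ0 =>
    if TV G s g τ0 then askF (frF q s τ0) (f2 τ0) else .leaf true
  have d2 : ∀ τ0 τ1, (f2 τ0 τ1).depth ≤ s := by
    intro τ0 τ1
    have h1 := askF_depth (wit G s S g (τ0 ∪ τ1)) (fun _ : PS N => DTree.leaf true) 0
      (fun _ => le_rfl)
    have h2 := wit_card (G := G) hSs hqs g (τ0 ∪ τ1)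
    show (askF (wit G s S g (τ0 ∪ τ1)) (fun _ => .leaf true)).depth ≤ s
    omega
  have d1 : ∀ τ0, (f1 τ0).depth ≤ q * s + s := by
    intro τ0
    show (if TV G s g τ0 then askF (frF q s τ0) (f2 τ0) else .leaf true).depth ≤ q * s + s
    split_ifs with h
    · have h1 := askF_depth (frF q s τ0) (f2 τ0) s (d2 τ0)
      have h2 := frF_card q s τ0
      omega
    · exact Nat.zero_le _
  refine ⟨askF (S g) f1, ?_, ?_⟩
  · have h1 := askF_depth (S g) f1 (q * s + s) d1
    have h2 := hSs g
    refine le_trans (Nat.mul_le_mul_right M ?_) hM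
    calc (askF (S g) f1).depth ≤ s + (q * s + s) := h1.trans (Nat.add_le_add_right h2 _)
      _ = (q + 2) * s := by ring
  · intro π b' hπ hout
    obtain ⟨hgc, hout1⟩ := (askF_out hπ _ _ _).mp hout
    set τ0 := mt (S g) π with hτ0
    obtain ⟨j0, hj0⟩ := hg
    simp only [Det, if_true]
    by_cases hT : TV G s g τ0
    · have e1 : f1 τ0 = askF (frF q s τ0) (f2 τ0) := if_pos hT
      rw [e1] at hout1
      obtain ⟨hfc, hout2⟩ := (askF_out hπ _ _ _).mp hout1
      set Q := mt (frF q s τ0) π with hQdef
      have hτ0π : τ0 ⊆ π := mt_subset _ _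
      have hQπ : Q ⊆ π := mt_subset _ _
      have hτ0card : τ0.card ≤ s := (card_mt_le hπ _).trans (hSs g)
      have hcovcard : (cov τ0).card ≤ q * s := by
        rw [card_cov (hπ.mono hτ0π)]
        exact Nat.mul_le_mul_left q hτ0card
      obtain ⟨hf1, hf2⟩ := frF_spec (q := q) (s := s) (τ := τ0) (by
        have : q * (3 * s) = q * s + q * s + q * s := by ring
        omega)
      have hdis : Disjoint τ0 Q := by
        refine Finset.disjoint_left.mpr (fun B hB hB' => ?_)
        obtain ⟨-, v, hv, hvB⟩ := mem_mt.mp hB'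
        exact (mem_sdiff.mp (hf1 hv)).2 (mem_cov.mpr ⟨B, hB, hvB⟩)
      have hQs : s ≤ Q.card := by
        have h1 : (frF q s τ0).card ≤ (cov Q).card := card_le_card (cov_mt hfc)
        rw [hf2, card_cov (hπ.mono hQπ)] at h1
        exact Nat.le_of_mul_le_mul_left h1 (by omega)
      have hcg : Cov g τ0 := ⟨S g, hS g, cov_mt hgc⟩
      have hex := exists_moved G s hcg hT (by
        refine le_trans (Nat.add_le_add_right (Nat.mul_le_mul_left q ?_) 2) hroom
        omega) (hπ.mono (union_subset hτ0π hQπ)) hdis hQs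
      have e2 : wit G s S g (τ0 ∪ Q) = covset S hex.choose := by
        unfold wit
        rw [dif_pos hex]
      obtain ⟨hwc, -⟩ := (askF_out hπ _ _ _).mp hout2
      rw [e2] at hwc
      obtain ⟨b, hxb, σ, hσs, hσ, hLt⟩ := hex.choose_spec
      set x := hex.choose with hx
      have hσπ : σ ⊆ π := hσ.trans (union_subset hτ0π hQπ)
      obtain ⟨j, hj⟩ := hl x b hxb
      refine ⟨j, ?_⟩
      rw [hj]
      refine det_lit hq hπ x hwc ?_
      clear_value x
      rcases x with A | h
      · obtain ⟨l1, l2⟩ := hLt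
        simp only [vx]
        rw [← l2]
        refine ⟨fun hA => ?_, fun hA => hσπ hA⟩
        obtain ⟨v, hv⟩ : A.1.Nonempty := by
          rw [← card_pos, A.2]; omega
        obtain ⟨B, hB, hvB⟩ := mem_cov.mp (l1 hv)
        rw [hπ.eq_of_mem hA (hσπ hB) hv hvB]
        exact hB
      · obtain ⟨l1, l2⟩ := hLt
        simp only [vx]
        rw [← l2]
        simp only [covset, Sum.elim_inr] at hwc
        have hmc : (mt (S h) π).card ≤ s := (card_mt_le hπ _).trans (hSs h)
        have hcm : Cov h (mt (S h) π) := ⟨S h, hS h, cov_mt hwc⟩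
        constructor
        · intro hV
          refine TV_persist G s hq hcm (hπ.mono (union_subset (mt_subset _ _) hσπ)) ?_ hV
          refine le_trans (Nat.add_le_add_right (Nat.mul_le_mul_left q ?_) 2) hroom
          omega
        · intro hV
          refine TV_persist G s hq l1 (hπ.mono (union_subset hσπ (mt_subset _ _))) ?_ hV
          refine le_trans (Nat.add_le_add_right (Nat.mul_le_mul_left q ?_) 2) hroom
          omega
    · refine ⟨j0, ?_⟩
      rw [hj0]
      simp only [Det, Bool.not_true]
      refine det_gate hπ hgc ?_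
      simp only [Bool.false_eq_true, iff_false]
      exact hT

include hS hSs hqs in
/-- the derivations with a symmetric family are derivations with decision trees -/
theorem SDer.toEDer (hq : 1 ≤ q) (hroom : q * (3 * s) + 2 ≤ N) {c M : ℕ}
    (hM : (q + 2) * s * M ≤ N) {𝒰 : Finset (Fm p (XVar q N I k))} {φ : Fm p (XVar q N I k)}
    (h : SDer c G D 𝒰 φ) : EDer c M (symSys G s S D hD) 𝒰 φ := by
  induction h with
  | clause hmem hax => exact .clause hmem hax
  | gate₁ g x b hx hmem => exact .tree hmem (gate₁_treeAx hS hSs hqs hq hM hx)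
  | gate₂ g t φs hmem hg hl => exact .tree hmem (gate₂_treeAx hS hSs hqs hq hroom hM hg hl)
  | def₁ j hmem => exact .def₁ (X := symSys G s S D hD) j hmem
  | def₂ j hmem => exact .def₂ (X := symSys G s S D hD) j hmem
  | inf P Q hmem hP hQ hQU _ hinf ih => exact .inf P Q hmem hP hQ hQU ih hinf

end sys

end Pool.Agent.J6H7.GX
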