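import Pool.Agent.J6H7.GX.Defs

/-!
# Symmetric families of extension variables: definitions
-/

set_option autoImplicit false

namespace Pool.Agent.J6H7.GX

open Finset Pool.Agent.Helper600R2.Cnt
open scoped Pointwise

/-- The image `σ • A` of the `q`-element set `A` under the permutation `σ` of the points. -/
def mvV {q N : ℕ} (σ : Equiv.Perm (Fin N)) (A : Var q N) : Var q N :=
  ⟨σ • A.1, by rw [Finset.card_smul_finset]; exact A.2⟩

/-- A symmetric family `I` of extension variables (the gates of a symmetric circuit). The extension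
variable `g` stands for the disjunction of the literals in `ch g`; the pair `(x, true)` is the
literal `x` and `(x, false)` is the literal `¬ x`, where `x` is a variable of the counting principle
or another extension variable. The definitions are acyclic: the extension variables in `ch g` have
smaller rank than `g`. The group of all permutations of the points acts on the family, and the
definition of `σ • g` is the image of the definition of `g`. -/
structure SymGates (q N : ℕ) (I : Type) [MulAction (Equiv.Perm (Fin N)) I] where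
  ch : I → Set ((Var q N ⊕ I) × Bool)
  rank : I → ℕ
  rank_lt : ∀ (g h : I) (b : Bool), (.inr h, b) ∈ ch g → rank h < rank g
  equi : ∀ (σ : Equiv.Perm (Fin N)) (g : I) (x : Var q N ⊕ I) (b : Bool), (x, b) ∈ ch g →
    (Sum.map (mvV σ) (fun h => σ • h) x, b) ∈ ch (σ • g)

variable {p q N k : ℕ} {I : Type}

/-- The literal as a formula. -/
def litF (x : Var q N ⊕ I) (b : Bool) : Fm p (XVar q N I k) :=
  if b = true then .var (Sum.elim .inl (fun h => .inr (.inl h)) x)
  else .neg (.var (Sum.elim .inl (fun h => .inr (.inl h)) x))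

/-- The formulas which can be derived from the clauses of the counting principle modulo `q` with the
symmetric family `G` of extension variables, and `k` further extension variables `w j` which stand
for the formulas `D j`, if all formulas have to be in `𝒰`:

* `clause`: the clauses of the counting principle,
* `gate₁`: `g ∨ ¬ ℓ` for a gate `g` and one of its literals `ℓ`,
* `gate₂`: a disjunction which contains `¬ g` and all literals of the gate `g`,
* `def₁`, `def₂`: `w j ∨ ¬ D j` and `¬ w j ∨ D j`,
* `inf`: `φ` follows from at most `c` derivable formulas by an inference which only depends on the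
  meaning of the `MOD` gates and of the outermost connectives of at most `c` formulas of `𝒰`. -/
inductive SDer (c : ℕ) [MulAction (Equiv.Perm (Fin N)) I] (G : SymGates q N I)
    (D : Fin k → Fm p (XVar q N I k)) (𝒰 : Finset (Fm p (XVar q N I k))) :
    Fm p (XVar q N I k) → Prop
  | clause {φ : Fm p (XVar q N I k)} : φ ∈ 𝒰 → IsClause φ → SDer c G D 𝒰 φ
  | gate₁ (g : I) (x : Var q N ⊕ I) (b : Bool) : (x, b) ∈ G.ch g →
      .or 2 ![.var (.inr (.inl g)), .neg (litF x b)] ∈ 𝒰 →
      SDer c G D 𝒰 (.or 2 ![.var (.inr (.inl g)), .neg (litF x b)])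
  | gate₂ (g : I) (t : ℕ) (φs : Fin t → Fm p (XVar q N I k)) : .or t φs ∈ 𝒰 →
      (∃ j, φs j = .neg (.var (.inr (.inl g)))) → (∀ x b, (x, b) ∈ G.ch g → ∃ j, φs j = litF x b) →
      SDer c G D 𝒰 (.or t φs)
  | def₁ (j : Fin k) : .or 2 ![.var (.inr (.inr j)), .neg (D j)] ∈ 𝒰 →
      SDer c G D 𝒰 (.or 2 ![.var (.inr (.inr j)), .neg (D j)])
  | def₂ (j : Fin k) : .or 2 ![.neg (.var (.inr (.inr j))), D j] ∈ 𝒰 →
      SDer c G D 𝒰 (.or 2 ![.neg (.var (.inr (.inr j))), D j])
  | inf {φ : Fm p (XVar q N I k)} (P Q : Finset (Fm p (XVar q N I k))) :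
      φ ∈ 𝒰 → P.card ≤ c → Q.card ≤ c → Q ⊆ 𝒰 → (∀ χ ∈ P, SDer c G D 𝒰 χ) →
      (∀ V : Fm p (XVar q N I k) → Bool, RespMod V → (∀ χ ∈ Q, RespAt V χ) →
        (∀ χ ∈ P, V χ = true) → V φ = true) → SDer c G D 𝒰 φ

end Pool.Agent.J6H7.GX
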