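import Pool.Agent.Helper600R2.Cnt.PP
import Pool.Agent.Y600.Circ.Block

/-!
# Permutations that move partial partitions
-/

set_option linter.unusedSectionVars false
set_option autoImplicit false

namespace Pool.Agent.J6H7.GX

open Finset Pool.Agent.Helper600R2.Cnt
open scoped Pointwise

variable {N q : ℕ}

lemma mem_smul_iff (γ : Equiv.Perm (Fin N)) (B : Finset (Fin N)) (v : Fin N) :
    γ v ∈ γ • B ↔ v ∈ B := Finset.smul_mem_smul_finset_iff (a := γ) (b := v) (s := B)

lemma cov_smul (γ : Equiv.Perm (Fin N)) (π : PS N) : cov (γ • π) = γ • cov π := by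
  ext v
  obtain ⟨w, rfl⟩ := γ.surjective v
  rw [mem_smul_iff, mem_cov, mem_cov]
  constructor
  · rintro ⟨B, hB, hv⟩
    obtain ⟨C, hC, rfl⟩ := Finset.mem_smul_finset.mp hB
    exact ⟨C, hC, (mem_smul_iff γ C w).mp hv⟩
  · rintro ⟨B, hB, hv⟩
    exact ⟨γ • B, Finset.smul_mem_smul_finset hB, (mem_smul_iff γ B w).mpr hv⟩

lemma isPP_smul {π : PS N} (h : IsPP q π) (γ : Equiv.Perm (Fin N)) : IsPP q (γ • π) := by
  constructor
  · intro B hB
    obtain ⟨C, hC, rfl⟩ := Finset.mem_smul_finset.mp hB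
    rw [Finset.card_smul_finset]
    exact h.1 C hC
  · intro B hB B' hB' hne
    obtain ⟨C, hC, rfl⟩ := Finset.mem_smul_finset.mp hB
    obtain ⟨C', hC', rfl⟩ := Finset.mem_smul_finset.mp hB'
    have hCC : C ≠ C' := fun h => hne (by rw [h])
    refine Finset.disjoint_left.mpr (fun v hv hv' => ?_)
    obtain ⟨w, rfl⟩ := γ.surjective v
    exact Finset.disjoint_left.mp (h.2 C hC C' hC' hCC) ((mem_smul_iff γ C w).mp hv)
      ((mem_smul_iff γ C' w).mp hv')

lemma isPP_smul_iff {π : PS N} (γ : Equiv.Perm (Fin N)) : IsPP q (γ • π) ↔ IsPP q π := by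
  constructor
  · intro h
    have := isPP_smul h γ⁻¹
    rwa [inv_smul_smul] at this
  · intro h; exact isPP_smul h γ

/-- enumeration of the points of some blocks and of the points covered by `R` -/
noncomputable def enm {R P : PS N} {j : ℕ} (hP : ∀ B ∈ P, B.card = q) (e : Fin j ↪ P) :
    (cov R) ⊕ (Fin j × Fin q) → Fin N
  | .inl v => v.1
  | .inr (i, a) => (e i).1.orderEmbOfFin (hP _ (e i).2) a

lemma enm_inj {R P : PS N} {j : ℕ} (hRP : IsPP q (R ∪ P)) (hd : Disjoint R P)
    (hP : ∀ B ∈ P, B.card = q) (e : Fin j ↪ P) :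
    Function.Injective (enm (R := R) hP e) := by
  have hmem : ∀ (i : Fin j) (a : Fin q),
      enm (R := R) hP e (.inr (i, a)) ∈ (e i).1 := by
    intro i a
    exact Finset.orderEmbOfFin_mem _ _ _
  have hcross : ∀ (v : cov R) (i : Fin j) (a : Fin q),
      enm (R := R) hP e (.inl v) ≠ enm (R := R) hP e (.inr (i, a)) := by
    intro v i a h
    obtain ⟨B, hB, hvB⟩ := mem_cov.mp v.2
    have h1 := hmem i a
    rw [← h] at h1
    have h2 := hRP.eq_of_mem (mem_union_left _ hB) (mem_union_right _ (e i).2) hvB h1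
    exact Finset.disjoint_left.mp hd hB (h2 ▸ (e i).2)
  rintro (v | ⟨i, a⟩) (v' | ⟨i', a'⟩) h
  · exact congrArg Sum.inl (Subtype.ext h)
  · exact (hcross v i' a' h).elim
  · exact (hcross v' i a h.symm).elim
  · have h1 := hmem i a
    have h2 := hmem i' a'
    rw [h] at h1
    have h3 := hRP.eq_of_mem (mem_union_right _ (e i).2) (mem_union_right _ (e i').2) h1 h2
    have h4 : i = i' := e.injective (Subtype.ext h3)
    subst h4
    have h5 : a = a' := ((e i).1.orderEmbOfFin (hP _ (e i).2)).injective h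
    rw [h5]

/-- an even permutation that fixes the points covered by `R` and moves the blocks of `P` to blocks
of `Q` -/
theorem exists_move {R P Q : PS N} (hRP : IsPP q (R ∪ P)) (hRQ : IsPP q (R ∪ Q))
    (hdP : Disjoint R P) (hdQ : Disjoint R Q) (hcard : P.card ≤ Q.card)
    (hroom : q * (R.card + P.card) + 2 ≤ N) :
    ∃ γ : Equiv.Perm (Fin N), Equiv.Perm.sign γ = 1 ∧ (∀ v ∈ cov R, γ v = v) ∧
      ∀ B ∈ P, γ • B ∈ Q := by
  classical
  have hP : ∀ B ∈ P, B.card = q := fun B hB => hRP.1 B (mem_union_right _ hB)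
  have hQ : ∀ B ∈ Q, B.card = q := fun B hB => hRQ.1 B (mem_union_right _ hB)
  have eP : Fin P.card ≃ P := P.equivFin.symm
  obtain ⟨eQ⟩ : Nonempty (Fin P.card ↪ Q) :=
    Function.Embedding.nonempty_of_card_le (by simpa using hcard)
  have hu := enm_inj (R := R) hRP hdP hP eP.toEmbedding
  have hv := enm_inj (R := R) hRQ hdQ hQ eQ
  obtain ⟨σ, hσ⟩ := Pool.Agent.Y600.Circ.exists_perm hu hv
  -- the parity
  obtain ⟨γ, hγ1, hγ2⟩ : ∃ γ : Equiv.Perm (Fin N), Equiv.Perm.sign γ = 1 ∧
      ∀ i, γ (enm (R := R) hP eP.toEmbedding i) = enm (R := R) hQ eQ i := by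
    rcases Int.units_eq_one_or (Equiv.Perm.sign σ) with h | h
    · exact ⟨σ, h, hσ⟩
    · let im : Finset (Fin N) := univ.image (enm (R := R) hP eP.toEmbedding)
      have him : im.card + 2 ≤ N := by
        refine le_trans (Nat.add_le_add_right card_image_le 2) ?_
        rw [card_univ, Fintype.card_sum, Fintype.card_prod, Fintype.card_fin, Fintype.card_fin,
          Fintype.card_coe, card_cov (hRP.mono subset_union_left)]
        calc q * R.card + P.card * q + 2 = q * (R.card + P.card) + 2 := by ring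
          _ ≤ N := hroom
      have hc : 2 ≤ (univ \ im).card := by
        have := card_sdiff_add_card_eq_card (subset_univ im)
        rw [card_univ, Fintype.card_fin] at this
        omega
      obtain ⟨a, ha, b, hb, hab⟩ := Finset.one_lt_card.mp (show 1 < (univ \ im).card by omega)
      refine ⟨σ * Equiv.swap a b, ?_, fun i => ?_⟩
      · rw [map_mul, Equiv.Perm.sign_swap hab, h]
        simp
      · have hne : ∀ c ∈ univ \ im, enm (R := R) hP eP.toEmbedding i ≠ c := by
          rintro c hc rfl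
          exact (mem_sdiff.mp hc).2 (mem_image_of_mem _ (mem_univ i))
        rw [Equiv.Perm.mul_apply, Equiv.swap_apply_of_ne_of_ne (hne a ha) (hne b hb)]
        exact hσ i
  refine ⟨γ, hγ1, fun v hv => hγ2 (.inl ⟨v, hv⟩), fun B hB => ?_⟩
  obtain ⟨i, hi⟩ := eP.surjective ⟨B, hB⟩
  have hB' : (eP i).1 = B := by rw [hi]
  have hsub : γ • B ⊆ (eQ i).1 := by
    intro w hw
    obtain ⟨v, hv, rfl⟩ := Finset.mem_smul_finset.mp hw
    have h1 : v ∈ Set.range ((eP i).1.orderEmbOfFin (hP _ (eP i).2)) := by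
      rw [Finset.range_orderEmbOfFin, hB']
      exact hv
    obtain ⟨a, rfl⟩ := h1
    have h2 := hγ2 (.inr (i, a))
    have h3 : enm (R := R) hQ eQ (.inr (i, a)) ∈ (eQ i).1 := Finset.orderEmbOfFin_mem _ _ _
    rw [← h2] at h3
    exact h3
  have hcardB : (γ • B).card = (eQ i).1.card := by
    rw [Finset.card_smul_finset, hP B hB, hQ _ (eQ i).2]
  rw [Finset.eq_of_subset_of_card_le hsub hcardB.ge]
  exact (eQ i).2

end Pool.Agent.J6H7.GX
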