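import Pool.Agent.J6H7.GX.Sym.Defs
import Pool.Agent.J6H7.GX.Sym.Move

/-!
# The truth values of symmetric extension variables at partial partitions
-/

set_option linter.unusedSectionVars false
set_option autoImplicit false

namespace Pool.Agent.J6H7.GX

open Finset Pool.Agent.Helper600R2.Cnt
open scoped Pointwise

variable {q N : ℕ} {I : Type} [MulAction (Equiv.Perm (Fin N)) I]

/-- `S` is a support of `g`: all even permutations that fix the points of `S` fix `g` -/
def Supp (g : I) (S : Finset (Fin N)) : Prop :=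
  ∀ γ : Equiv.Perm (Fin N), Equiv.Perm.sign γ = 1 → (∀ v ∈ S, γ v = v) → γ • g = g

/-- the partial partition covers a support of `g` -/
def Cov (g : I) (π : PS N) : Prop := ∃ S : Finset (Fin N), Supp g S ∧ S ⊆ cov π

lemma Cov.fix {g : I} {π : PS N} (h : Cov g π) {γ : Equiv.Perm (Fin N)}
    (hγ : Equiv.Perm.sign γ = 1) (hf : ∀ v ∈ cov π, γ v = v) : γ • g = g := by
  obtain ⟨S, hS, hSπ⟩ := h
  exact hS γ hγ (fun v hv => hf v (hSπ hv))

lemma Cov.mono {g : I} {π π' : PS N} (h : Cov g π) (hs : cov π ⊆ cov π') : Cov g π' := by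
  obtain ⟨S, hS, hSπ⟩ := h
  exact ⟨S, hS, hSπ.trans hs⟩

lemma Cov.smul {g : I} {π : PS N} (h : Cov g π) (γ : Equiv.Perm (Fin N)) :
    Cov (γ • g) (γ • π) := by
  obtain ⟨S, hS, hSπ⟩ := h
  refine ⟨γ • S, ?_, ?_⟩
  · intro τ hτ hf
    have h1 : (γ⁻¹ * τ * γ) • g = g := by
      apply hS
      · rw [map_mul, map_mul, hτ, map_inv]
        simp
      · intro v hv
        have h2 := hf (γ v) ((mem_smul_iff γ S v).mpr hv)
        rw [Equiv.Perm.mul_apply, Equiv.Perm.mul_apply, h2]
        exact γ.symm_apply_apply v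
    have h3 : γ • ((γ⁻¹ * τ * γ) • g) = γ • g := by rw [h1]
    rw [← mul_smul] at h3
    have h4 : γ * (γ⁻¹ * τ * γ) = τ * γ := by group
    rw [h4, mul_smul] at h3
    exact h3
  · rw [cov_smul]
    exact Finset.smul_finset_subset_smul_finset hSπ

lemma cov_smul_iff (γ : Equiv.Perm (Fin N)) (g : I) (π : PS N) :
    Cov (γ • g) (γ • π) ↔ Cov g π := by
  constructor
  · intro h
    have := h.smul γ⁻¹
    rwa [inv_smul_smul, inv_smul_smul] at this
  · intro h; exact h.smul γ

/-- the literal is decided and true at `σ` -/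
def Lt (T : I → PS N → Prop) : Var q N ⊕ I → Bool → PS N → Prop
  | .inl A, b, σ => A.1 ⊆ cov σ ∧ (A.1 ∈ σ ↔ b = true)
  | .inr h, b, σ => Cov h σ ∧ (T h σ ↔ b = true)

/-- the gate is true at `π` (for gates of rank less than `n`): some partial partition with at most
`s` blocks that is compatible with `π` decides a literal of the gate and makes it true -/
def Tn (G : SymGates q N I) (s : ℕ) : ℕ → I → PS N → Prop
  | 0, _, _ => False
  | n + 1, g, π => ∃ x b, (x, b) ∈ G.ch g ∧ ∃ σ : PS N, σ.card ≤ s ∧ IsPP q (π ∪ σ) ∧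
      Lt (Tn G s n) x b σ

variable (G : SymGates q N I) (s : ℕ)

lemma Lt.congr {T T' : I → PS N → Prop} {x : Var q N ⊕ I} {b : Bool} {σ : PS N}
    (h : ∀ h', x = .inr h' → (T h' σ ↔ T' h' σ)) : Lt T x b σ ↔ Lt T' x b σ := by
  rcases x with A | h'
  · exact Iff.rfl
  · simp only [Lt]
    rw [h h' rfl]

lemma Tn_stab : ∀ (n m : ℕ) (g : I) (π : PS N), G.rank g < n → G.rank g < m →
    (Tn G s n g π ↔ Tn G s m g π) := by
  intro n
  induction n with
  | zero => intro m g π h; exact absurd h (Nat.not_lt_zero _)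
  | succ n ih =>
    intro m g π hn hm
    cases m with
    | zero => exact absurd hm (Nat.not_lt_zero _)
    | succ m =>
      simp only [Tn]
      have key : ∀ x b, (x, b) ∈ G.ch g → ∀ σ, (Lt (Tn G s n) x b σ ↔ Lt (Tn G s m) x b σ) := by
        intro x b hx σ
        apply Lt.congr
        rintro h' rfl
        have h1 := G.rank_lt g h' b hx
        exact ih m h' σ (by omega) (by omega)
      constructor
      · rintro ⟨x, b, hx, σ, h1, h2, h3⟩
        exact ⟨x, b, hx, σ, h1, h2, (key x b hx σ).mp h3⟩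
      · rintro ⟨x, b, hx, σ, h1, h2, h3⟩
        exact ⟨x, b, hx, σ, h1, h2, (key x b hx σ).mpr h3⟩

lemma Lt_smul {T : I → PS N → Prop} (γ : Equiv.Perm (Fin N))
    (hT : ∀ h σ, T (γ • h) (γ • σ) ↔ T h σ) (x : Var q N ⊕ I) (b : Bool) (σ : PS N) :
    Lt T (Sum.map (mvV γ) (fun h => γ • h) x) b (γ • σ) ↔ Lt T x b σ := by
  rcases x with A | h
  · simp only [Sum.map_inl, Lt, mvV]
    rw [cov_smul, Finset.smul_finset_subset_smul_finset_iff, Finset.smul_mem_smul_finset_iff]
  · simp only [Sum.map_inr, Lt]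
    rw [cov_smul_iff, hT]

lemma Tn_smul (γ : Equiv.Perm (Fin N)) : ∀ (n : ℕ) (g : I) (π : PS N),
    Tn G s n (γ • g) (γ • π) ↔ Tn G s n g π := by
  have key : ∀ (γ : Equiv.Perm (Fin N)) (n : ℕ),
      (∀ (γ : Equiv.Perm (Fin N)) (g : I) (π : PS N), Tn G s n (γ • g) (γ • π) ↔ Tn G s n g π) →
      ∀ (g : I) (π : PS N), Tn G s (n + 1) g π → Tn G s (n + 1) (γ • g) (γ • π) := by
    intro γ n ih g π h
    simp only [Tn] at h ⊢
    obtain ⟨x, b, hx, σ, h1, h2, h3⟩ := h
    refine ⟨_, b, G.equi γ g x b hx, γ • σ, ?_, ?_, ?_⟩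
    · rw [Finset.card_smul_finset]; exact h1
    · rw [← Finset.smul_finset_union]; exact isPP_smul h2 γ
    · exact (Lt_smul γ (ih γ) x b σ).mpr h3
  have main : ∀ (n : ℕ) (γ : Equiv.Perm (Fin N)) (g : I) (π : PS N),
      Tn G s n (γ • g) (γ • π) ↔ Tn G s n g π := by
    intro n
    induction n with
    | zero => intro γ g π; exact Iff.rfl
    | succ n ih =>
      intro γ g π
      constructor
      · intro h
        have := key γ⁻¹ n ih _ _ h
        rwa [inv_smul_smul, inv_smul_smul] at this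
      · intro h; exact key γ n ih g π h
  exact fun n => main n γ

section fin

variable [Fintype I]

/-- larger than all ranks -/
noncomputable def topR : ℕ := univ.sup (fun g : I => G.rank g) + 1

lemma rank_lt_topR (g : I) : G.rank g < topR G :=
  Nat.lt_succ_of_le (Finset.le_sup (f := fun g : I => G.rank g) (mem_univ g))

/-- the gate is true at `π` -/
def TV (g : I) (π : PS N) : Prop := Tn G s (topR G) g π

lemma TV_iff (g : I) (π : PS N) : TV G s g π ↔ ∃ x b, (x, b) ∈ G.ch g ∧ ∃ σ : PS N,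
    σ.card ≤ s ∧ IsPP q (π ∪ σ) ∧ Lt (TV G s) x b σ := by
  have h1 : TV G s g π ↔ Tn G s (topR G + 1) g π :=
    Tn_stab G s _ _ g π (rank_lt_topR G g) ((rank_lt_topR G g).trans (Nat.lt_succ_self _))
  rw [h1]
  exact Iff.rfl

lemma TV_smul (γ : Equiv.Perm (Fin N)) (g : I) (π : PS N) :
    TV G s (γ • g) (γ • π) ↔ TV G s g π := Tn_smul G s γ _ g π

lemma smul_of_fix {γ : Equiv.Perm (Fin N)} {B : Finset (Fin N)} (h : ∀ v ∈ B, γ v = v) :
    γ • B = B := by
  ext v
  rw [Finset.mem_smul_finset]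
  constructor
  · rintro ⟨w, hw, rfl⟩
    have := h w hw
    rw [Equiv.Perm.smul_def, this]
    exact hw
  · intro hv
    exact ⟨v, hv, h v hv⟩

/-- the witness can be moved: if the gate is true at `π`, and `Q` is a set of at least `s` blocks
disjoint from those of `π`, then some literal is true at a partial partition that consists of blocks
of `π` and `Q` -/
lemma exists_moved {g : I} {π Q : PS N} (hc : Cov g π) (hT : TV G s g π)
    (hroom : q * (π.card + s) + 2 ≤ N) (hQ : IsPP q (π ∪ Q)) (hd : Disjoint π Q)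
    (hs : s ≤ Q.card) :
    ∃ x b, (x, b) ∈ G.ch g ∧ ∃ σ : PS N, σ.card ≤ s ∧ σ ⊆ π ∪ Q ∧ Lt (TV G s) x b σ := by
  classical
  obtain ⟨x, b, hx, σ, h1, h2, h3⟩ := (TV_iff G s g π).mp hT
  have e1 : π ∪ (σ \ π) = π ∪ σ := by simp
  obtain ⟨γ, g1, g2, g3⟩ := exists_move (R := π) (P := σ \ π) (Q := Q) (q := q)
    (by rw [e1]; exact h2) hQ disjoint_sdiff hd
    ((card_le_card sdiff_subset).trans (h1.trans hs))
    ((Nat.add_le_add_right (Nat.mul_le_mul_left q
      (Nat.add_le_add_left ((card_le_card sdiff_subset).trans h1) _)) 2).trans hroom)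
  have hg : γ • g = g := hc.fix g1 g2
  refine ⟨_, b, ?_, γ • σ, ?_, ?_, (Lt_smul γ (TV_smul G s γ) x b σ).mpr h3⟩
  · have := G.equi γ g x b hx
    rwa [hg] at this
  · rw [Finset.card_smul_finset]; exact h1
  · intro B hB
    obtain ⟨C, hC, rfl⟩ := Finset.mem_smul_finset.mp hB
    rw [mem_union]
    by_cases hCπ : C ∈ π
    · left
      rw [smul_of_fix (fun v hv => g2 v (mem_cov.mpr ⟨C, hCπ, hv⟩))]
      exact hCπ
    · right
      exact g3 C (mem_sdiff.mpr ⟨hC, hCπ⟩)

/-- fresh blocks -/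
lemma exists_fresh (hq : 1 ≤ q) (s : ℕ) : ∀ π : PS N, IsPP q π → q * (π.card + s) ≤ N →
    ∃ Q : PS N, IsPP q (π ∪ Q) ∧ Disjoint π Q ∧ Q.card = s := by
  classical
  induction s with
  | zero => intro π hπ _; exact ⟨∅, by simpa using hπ, disjoint_empty_right _, rfl⟩
  | succ s ih =>
    intro π hπ h
    have h' : q * (π.card + s) + q ≤ N := by
      calc q * (π.card + s) + q = q * (π.card + (s + 1)) := by ring
        _ ≤ N := h
    obtain ⟨Q, h1, h2, h3⟩ := ih π hπ (by omega)
    have hfree := card_free h1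
    have hcu : (π ∪ Q).card = π.card + s := by rw [card_union_of_disjoint h2, h3]
    rw [hcu] at hfree
    obtain ⟨B, hB2, hB3⟩ := Finset.exists_subset_card_eq (s := univ \ cov (π ∪ Q)) (n := q)
      (by omega)
    have hdis : Disjoint B (cov (π ∪ Q)) := by
      refine Finset.disjoint_left.mpr (fun x hx hx' => ?_)
      exact (mem_sdiff.mp (hB2 hx)).2 hx'
    have hBn : B ∉ π ∪ Q := by
      intro hB
      obtain ⟨x, hx⟩ : B.Nonempty := by rw [← card_pos]; omega
      exact Finset.disjoint_left.mp hdis hx (mem_cov.mpr ⟨B, hB, hx⟩)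
    refine ⟨insert B Q, ?_, ?_, ?_⟩
    · have : π ∪ insert B Q = insert B (π ∪ Q) := by
        ext C; simp only [mem_union, mem_insert]; tauto
      rw [this]
      exact h1.insert hB3 hdis
    · rw [Finset.disjoint_insert_right]
      exact ⟨fun h => hBn (mem_union_left _ h), h2⟩
    · rw [card_insert_of_notMem (fun h => hBn (mem_union_right _ h)), h3]

/-- the truth value does not depend on the partial partition, among compatible ones that cover a
support -/
lemma TV_persist (hq : 1 ≤ q) {g : I} {π π1 : PS N} (hc : Cov g π) (hPP : IsPP q (π ∪ π1))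
    (hroom : q * (π.card + π1.card + s) + 2 ≤ N) (hT : TV G s g π) : TV G s g π1 := by
  classical
  have hcu := card_union_le π π1
  obtain ⟨Q, h1, h2, h3⟩ := exists_fresh (q := q) hq s (π ∪ π1) hPP
    (le_trans (Nat.mul_le_mul_left q (Nat.add_le_add_right hcu s)) (by omega))
  obtain ⟨x, b, hx, σ, g1, g2, g3⟩ := exists_moved G s hc hT
    (le_trans (Nat.add_le_add_right (Nat.mul_le_mul_left q (by omega)) 2) hroom) (Q := Q)
    (h1.mono (union_subset_union_left subset_union_left))
    (h2.mono_left subset_union_left) h3.ge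
  rw [TV_iff]
  refine ⟨x, b, hx, σ, g1, h1.mono ?_, g3⟩
  intro B hB
  rcases mem_union.mp hB with hB | hB
  · exact mem_union_left _ (mem_union_right _ hB)
  · rcases mem_union.mp (g2 hB) with hB | hB
    · exact mem_union_left _ (mem_union_left _ hB)
    · exact mem_union_right _ hB

end fin

end Pool.Agent.J6H7.GX
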